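import Pool.Agent.Q191.RT.Moves

/-!
# Blocks
-/

set_option autoImplicit false
set_option linter.unusedVariables false

namespace Pool.Agent.Q191.RT

variable {b ε : ℝ} (h : Par b ε) {x : ℕ → ℝ} (hx : Orb b x)

/-- the section -/
def Sec (ε : ℝ) (x : ℕ → ℝ) (n : ℕ) : Prop :=
  -ε ≤ x n ∧ x n ≤ 0 ∧ -ε ≤ x (n + 2) ∧ x (n + 2) ≤ 0

/-- length of the block -/
def len : Bool → ℕ
  | false => 46
  | true => 27

/-- left end of the interval -/
noncomputable def lft : Bool → ℝ
  | false => -(32922 / 10000)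
  | true => -(3256 / 1000)

/-- right end of the interval -/
noncomputable def rgt : Bool → ℝ
  | false => -(32902 / 10000)
  | true => -(3235 / 1000)

/-- slope of the block -/
noncomputable def slo : Bool → ℝ
  | false => 30
  | true => 3

/-- translation part of the block -/
noncomputable def cst : Bool → ℝ
  | false => 102
  | true => 13

theorem lowb {p q r : ℝ} (h : r ≤ -(p + q)) : r ≤ |p| + |q| := by
  have h1 := neg_abs_le p
  have h2 := neg_abs_le q
  linarith

include h hx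

theorem block (hε : 0 ≤ ε) (hε' : ε ≤ 1 / 10000000) (n : ℕ) (i : Bool) (hS : Sec ε x n)
    (h1 : lft i ≤ x (n + 1)) (h2 : x (n + 1) ≤ rgt i) :
    Sec ε x (n + len i) ∧
    (-(slo i * x (n + 1)) - cst i - 1 / 1000 ≤ x (n + len i + 1) ∧
      x (n + len i + 1) ≤ -(slo i * x (n + 1)) - cst i + 1 / 1000) ∧
    (∀ j, j < len i → |x (n + j)| ≤ 5) ∧
    (∀ j, j < len i → j = 0 → |x (n + j)| + |x (n + j + 2)| ≤ 1 / 100) ∧
    (∀ j, j < len i → ¬ j = 0 → 3 / 100 ≤ |x (n + j)| + |x (n + j + 2)|) := by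
  obtain ⟨w1, w2, u1, u2⟩ := hS
  have hzero : |x n| + |x (n + 2)| ≤ 1 / 100 := by
    rw [abs_of_nonpos w2, abs_of_nonpos u2]
    linarith only [w1, u1, hε, hε']
  cases i
  · simp only [lft, rgt] at h1 h2
    obtain ⟨⟨a3, b3⟩, ⟨a4, b4⟩, ⟨a5, b5⟩, ⟨a6, b6⟩, ⟨a7, b7⟩, ⟨a8, b8⟩, ⟨a9, b9⟩, ⟨a10, b10⟩, ⟨a11, b11⟩, ⟨a12, b12⟩, ⟨a13, b13⟩, ⟨a14, b14⟩, ⟨a15, b15⟩, ⟨a16, b16⟩, ⟨a17, b17⟩, ⟨a18, b18⟩, ⟨a19, b19⟩, ⟨a20, b20⟩, ⟨a21, b21⟩, ⟨a22, b22⟩, ⟨a23, b23⟩, ⟨a24, b24⟩, ⟨a25, b25⟩, ⟨a26, b26⟩, ⟨a27, b27⟩, ⟨a28, b28⟩, ⟨a29, b29⟩, ⟨a30, b30⟩, ⟨a31, b31⟩, ⟨a32, b32⟩, ⟨a33, b33⟩, ⟨a34, b34⟩, ⟨a35, b35⟩, ⟨a36, b36⟩, ⟨a37, b37⟩, ⟨a38, b38⟩, ⟨a39, b39⟩, ⟨a40, b40⟩, ⟨a41, b41⟩, ⟨a42, b42⟩, ⟨a43, b43⟩, ⟨a44, b44⟩, ⟨a45, b45⟩, ⟨a46, b46⟩, ⟨a47, b47⟩, ⟨a48, b48⟩⟩ :=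
      moveP h hx hε hε' n w1 w2 u1 u2 (by linarith only [h1]) (by linarith only [h2])
    refine ⟨⟨a46, b46, a48, b48⟩, ⟨?_, ?_⟩, ?_, ?_, ?_⟩
    · show -(30 * x (n + 1)) - 102 - 1 / 1000 ≤ x (n + 47)
      linarith only [a47, hε, hε']
    · show x (n + 47) ≤ -(30 * x (n + 1)) - 102 + 1 / 1000
      linarith only [b47, hε, hε']
    · intro j hj
      rw [show len false = 46 from rfl] at hj
      interval_cases j
      · exact abs_le.2 ⟨by show -5 ≤ x n; linarith only [h1, h2, hε, hε', w1, w2], by show x n ≤ 5; linarith only [h1, h2, hε, hε', w1, w2]⟩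
      · exact abs_le.2 ⟨by show -5 ≤ x (n + 1); linarith only [h1, h2, hε, hε'], by show x (n + 1) ≤ 5; linarith only [h1, h2, hε, hε']⟩
      · exact abs_le.2 ⟨by show -5 ≤ x (n + 2); linarith only [h1, h2, hε, hε', u1, u2], by show x (n + 2) ≤ 5; linarith only [h1, h2, hε, hε', u1, u2]⟩
      · exact abs_le.2 ⟨by show -5 ≤ x (n + 3); linarith only [h1, h2, hε, hε', a3, b3], by show x (n + 3) ≤ 5; linarith only [h1, h2, hε, hε', a3, b3]⟩
      · exact abs_le.2 ⟨by show -5 ≤ x (n + 4); linarith only [h1, h2, hε, hε', a4, b4], by show x (n + 4) ≤ 5; linarith only [h1, h2, hε, hε', a4, b4]⟩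
      · exact abs_le.2 ⟨by show -5 ≤ x (n + 5); linarith only [h1, h2, hε, hε', a5, b5], by show x (n + 5) ≤ 5; linarith only [h1, h2, hε, hε', a5, b5]⟩
      · exact abs_le.2 ⟨by show -5 ≤ x (n + 6); linarith only [h1, h2, hε, hε', a6, b6], by show x (n + 6) ≤ 5; linarith only [h1, h2, hε, hε', a6, b6]⟩
      · exact abs_le.2 ⟨by show -5 ≤ x (n + 7); linarith only [h1, h2, hε, hε', a7, b7], by show x (n + 7) ≤ 5; linarith only [h1, h2, hε, hε', a7, b7]⟩
      · exact abs_le.2 ⟨by show -5 ≤ x (n + 8); linarith only [h1, h2, hε, hε', a8, b8], by show x (n + 8) ≤ 5; linarith only [h1, h2, hε, hε', a8, b8]⟩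
      · exact abs_le.2 ⟨by show -5 ≤ x (n + 9); linarith only [h1, h2, hε, hε', a9, b9], by show x (n + 9) ≤ 5; linarith only [h1, h2, hε, hε', a9, b9]⟩
      · exact abs_le.2 ⟨by show -5 ≤ x (n + 10); linarith only [h1, h2, hε, hε', a10, b10], by show x (n + 10) ≤ 5; linarith only [h1, h2, hε, hε', a10, b10]⟩
      · exact abs_le.2 ⟨by show -5 ≤ x (n + 11); linarith only [h1, h2, hε, hε', a11, b11], by show x (n + 11) ≤ 5; linarith only [h1, h2, hε, hε', a11, b11]⟩
      · exact abs_le.2 ⟨by show -5 ≤ x (n + 12); linarith only [h1, h2, hε, hε', a12, b12], by show x (n + 12) ≤ 5; linarith only [h1, h2, hε, hε', a12, b12]⟩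
      · exact abs_le.2 ⟨by show -5 ≤ x (n + 13); linarith only [h1, h2, hε, hε', a13, b13], by show x (n + 13) ≤ 5; linarith only [h1, h2, hε, hε', a13, b13]⟩
      · exact abs_le.2 ⟨by show -5 ≤ x (n + 14); linarith only [h1, h2, hε, hε', a14, b14], by show x (n + 14) ≤ 5; linarith only [h1, h2, hε, hε', a14, b14]⟩
      · exact abs_le.2 ⟨by show -5 ≤ x (n + 15); linarith only [h1, h2, hε, hε', a15, b15], by show x (n + 15) ≤ 5; linarith only [h1, h2, hε, hε', a15, b15]⟩
      · exact abs_le.2 ⟨by show -5 ≤ x (n + 16); linarith only [h1, h2, hε, hε', a16, b16], by show x (n + 16) ≤ 5; linarith only [h1, h2, hε, hε', a16, b16]⟩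
      · exact abs_le.2 ⟨by show -5 ≤ x (n + 17); linarith only [h1, h2, hε, hε', a17, b17], by show x (n + 17) ≤ 5; linarith only [h1, h2, hε, hε', a17, b17]⟩
      · exact abs_le.2 ⟨by show -5 ≤ x (n + 18); linarith only [h1, h2, hε, hε', a18, b18], by show x (n + 18) ≤ 5; linarith only [h1, h2, hε, hε', a18, b18]⟩
      · exact abs_le.2 ⟨by show -5 ≤ x (n + 19); linarith only [h1, h2, hε, hε', a19, b19], by show x (n + 19) ≤ 5; linarith only [h1, h2, hε, hε', a19, b19]⟩
      · exact abs_le.2 ⟨by show -5 ≤ x (n + 20); linarith only [h1, h2, hε, hε', a20, b20], by show x (n + 20) ≤ 5; linarith only [h1, h2, hε, hε', a20, b20]⟩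
      · exact abs_le.2 ⟨by show -5 ≤ x (n + 21); linarith only [h1, h2, hε, hε', a21, b21], by show x (n + 21) ≤ 5; linarith only [h1, h2, hε, hε', a21, b21]⟩
      · exact abs_le.2 ⟨by show -5 ≤ x (n + 22); linarith only [h1, h2, hε, hε', a22, b22], by show x (n + 22) ≤ 5; linarith only [h1, h2, hε, hε', a22, b22]⟩
      · exact abs_le.2 ⟨by show -5 ≤ x (n + 23); linarith only [h1, h2, hε, hε', a23, b23], by show x (n + 23) ≤ 5; linarith only [h1, h2, hε, hε', a23, b23]⟩
      · exact abs_le.2 ⟨by show -5 ≤ x (n + 24); linarith only [h1, h2, hε, hε', a24, b24], by show x (n + 24) ≤ 5; linarith only [h1, h2, hε, hε', a24, b24]⟩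
      · exact abs_le.2 ⟨by show -5 ≤ x (n + 25); linarith only [h1, h2, hε, hε', a25, b25], by show x (n + 25) ≤ 5; linarith only [h1, h2, hε, hε', a25, b25]⟩
      · exact abs_le.2 ⟨by show -5 ≤ x (n + 26); linarith only [h1, h2, hε, hε', a26, b26], by show x (n + 26) ≤ 5; linarith only [h1, h2, hε, hε', a26, b26]⟩
      · exact abs_le.2 ⟨by show -5 ≤ x (n + 27); linarith only [h1, h2, hε, hε', a27, b27], by show x (n + 27) ≤ 5; linarith only [h1, h2, hε, hε', a27, b27]⟩
      · exact abs_le.2 ⟨by show -5 ≤ x (n + 28); linarith only [h1, h2, hε, hε', a28, b28], by show x (n + 28) ≤ 5; linarith only [h1, h2, hε, hε', a28, b28]⟩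
      · exact abs_le.2 ⟨by show -5 ≤ x (n + 29); linarith only [h1, h2, hε, hε', a29, b29], by show x (n + 29) ≤ 5; linarith only [h1, h2, hε, hε', a29, b29]⟩
      · exact abs_le.2 ⟨by show -5 ≤ x (n + 30); linarith only [h1, h2, hε, hε', a30, b30], by show x (n + 30) ≤ 5; linarith only [h1, h2, hε, hε', a30, b30]⟩
      · exact abs_le.2 ⟨by show -5 ≤ x (n + 31); linarith only [h1, h2, hε, hε', a31, b31], by show x (n + 31) ≤ 5; linarith only [h1, h2, hε, hε', a31, b31]⟩
      · exact abs_le.2 ⟨by show -5 ≤ x (n + 32); linarith only [h1, h2, hε, hε', a32, b32], by show x (n + 32) ≤ 5; linarith only [h1, h2, hε, hε', a32, b32]⟩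
      · exact abs_le.2 ⟨by show -5 ≤ x (n + 33); linarith only [h1, h2, hε, hε', a33, b33], by show x (n + 33) ≤ 5; linarith only [h1, h2, hε, hε', a33, b33]⟩
      · exact abs_le.2 ⟨by show -5 ≤ x (n + 34); linarith only [h1, h2, hε, hε', a34, b34], by show x (n + 34) ≤ 5; linarith only [h1, h2, hε, hε', a34, b34]⟩
      · exact abs_le.2 ⟨by show -5 ≤ x (n + 35); linarith only [h1, h2, hε, hε', a35, b35], by show x (n + 35) ≤ 5; linarith only [h1, h2, hε, hε', a35, b35]⟩
      · exact abs_le.2 ⟨by show -5 ≤ x (n + 36); linarith only [h1, h2, hε, hε', a36, b36], by show x (n + 36) ≤ 5; linarith only [h1, h2, hε, hε', a36, b36]⟩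
      · exact abs_le.2 ⟨by show -5 ≤ x (n + 37); linarith only [h1, h2, hε, hε', a37, b37], by show x (n + 37) ≤ 5; linarith only [h1, h2, hε, hε', a37, b37]⟩
      · exact abs_le.2 ⟨by show -5 ≤ x (n + 38); linarith only [h1, h2, hε, hε', a38, b38], by show x (n + 38) ≤ 5; linarith only [h1, h2, hε, hε', a38, b38]⟩
      · exact abs_le.2 ⟨by show -5 ≤ x (n + 39); linarith only [h1, h2, hε, hε', a39, b39], by show x (n + 39) ≤ 5; linarith only [h1, h2, hε, hε', a39, b39]⟩
      · exact abs_le.2 ⟨by show -5 ≤ x (n + 40); linarith only [h1, h2, hε, hε', a40, b40], by show x (n + 40) ≤ 5; linarith only [h1, h2, hε, hε', a40, b40]⟩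
      · exact abs_le.2 ⟨by show -5 ≤ x (n + 41); linarith only [h1, h2, hε, hε', a41, b41], by show x (n + 41) ≤ 5; linarith only [h1, h2, hε, hε', a41, b41]⟩
      · exact abs_le.2 ⟨by show -5 ≤ x (n + 42); linarith only [h1, h2, hε, hε', a42, b42], by show x (n + 42) ≤ 5; linarith only [h1, h2, hε, hε', a42, b42]⟩
      · exact abs_le.2 ⟨by show -5 ≤ x (n + 43); linarith only [h1, h2, hε, hε', a43, b43], by show x (n + 43) ≤ 5; linarith only [h1, h2, hε, hε', a43, b43]⟩
      · exact abs_le.2 ⟨by show -5 ≤ x (n + 44); linarith only [h1, h2, hε, hε', a44, b44], by show x (n + 44) ≤ 5; linarith only [h1, h2, hε, hε', a44, b44]⟩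
      · exact abs_le.2 ⟨by show -5 ≤ x (n + 45); linarith only [h1, h2, hε, hε', a45, b45], by show x (n + 45) ≤ 5; linarith only [h1, h2, hε, hε', a45, b45]⟩
    · intro j hj hev
      subst hev
      exact hzero
    · intro j hj hev
      rw [show len false = 46 from rfl] at hj
      interval_cases j
      · exact absurd rfl hev
      · exact lowb (by show _ ≤ -(x (n + 1) + x (n + 3)); linarith only [h1, h2, hε, hε', a3, b3])
      · exact lowb (by show _ ≤ -(x (n + 2) + x (n + 4)); linarith only [h1, h2, hε, hε', u1, u2, a4, b4])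
      · exact lowb (by show _ ≤ -(x (n + 3) + x (n + 5)); linarith only [h1, h2, hε, hε', a3, b3, a5, b5])
      · exact lowb (by show _ ≤ -(x (n + 4) + x (n + 6)); linarith only [h1, h2, hε, hε', a4, b4, a6, b6])
      · exact lowb (by show _ ≤ -(x (n + 5) + x (n + 7)); linarith only [h1, h2, hε, hε', a5, b5, a7, b7])
      · exact lowb (by show _ ≤ -(x (n + 6) + x (n + 8)); linarith only [h1, h2, hε, hε', a6, b6, a8, b8])
      · exact lowb (by show _ ≤ -(x (n + 7) + x (n + 9)); linarith only [h1, h2, hε, hε', a7, b7, a9, b9])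
      · exact lowb (by show _ ≤ -(x (n + 8) + x (n + 10)); linarith only [h1, h2, hε, hε', a8, b8, a10, b10])
      · exact lowb (by show _ ≤ -(x (n + 9) + x (n + 11)); linarith only [h1, h2, hε, hε', a9, b9, a11, b11])
      · exact lowb (by show _ ≤ -(x (n + 10) + x (n + 12)); linarith only [h1, h2, hε, hε', a10, b10, a12, b12])
      · exact lowb (by show _ ≤ -(x (n + 11) + x (n + 13)); linarith only [h1, h2, hε, hε', a11, b11, a13, b13])
      · exact lowb (by show _ ≤ -(x (n + 12) + x (n + 14)); linarith only [h1, h2, hε, hε', a12, b12, a14, b14])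
      · exact lowb (by show _ ≤ -(x (n + 13) + x (n + 15)); linarith only [h1, h2, hε, hε', a13, b13, a15, b15])
      · exact lowb (by show _ ≤ -(x (n + 14) + x (n + 16)); linarith only [h1, h2, hε, hε', a14, b14, a16, b16])
      · exact lowb (by show _ ≤ -(x (n + 15) + x (n + 17)); linarith only [h1, h2, hε, hε', a15, b15, a17, b17])
      · exact lowb (by show _ ≤ -(x (n + 16) + x (n + 18)); linarith only [h1, h2, hε, hε', a16, b16, a18, b18])
      · exact lowb (by show _ ≤ -(x (n + 17) + x (n + 19)); linarith only [h1, h2, hε, hε', a17, b17, a19, b19])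
      · exact lowb (by show _ ≤ -(x (n + 18) + x (n + 20)); linarith only [h1, h2, hε, hε', a18, b18, a20, b20])
      · exact lowb (by show _ ≤ -(x (n + 19) + x (n + 21)); linarith only [h1, h2, hε, hε', a19, b19, a21, b21])
      · exact lowb (by show _ ≤ -(x (n + 20) + x (n + 22)); linarith only [h1, h2, hε, hε', a20, b20, a22, b22])
      · exact lowb (by show _ ≤ -(x (n + 21) + x (n + 23)); linarith only [h1, h2, hε, hε', a21, b21, a23, b23])
      · exact lowb (by show _ ≤ -(x (n + 22) + x (n + 24)); linarith only [h1, h2, hε, hε', a22, b22, a24, b24])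
      · exact lowb (by show _ ≤ -(x (n + 23) + x (n + 25)); linarith only [h1, h2, hε, hε', a23, b23, a25, b25])
      · exact lowb (by show _ ≤ -(x (n + 24) + x (n + 26)); linarith only [h1, h2, hε, hε', a24, b24, a26, b26])
      · exact lowb (by show _ ≤ -(x (n + 25) + x (n + 27)); linarith only [h1, h2, hε, hε', a25, b25, a27, b27])
      · exact lowb (by show _ ≤ -(x (n + 26) + x (n + 28)); linarith only [h1, h2, hε, hε', a26, b26, a28, b28])
      · exact lowb (by show _ ≤ -(x (n + 27) + x (n + 29)); linarith only [h1, h2, hε, hε', a27, b27, a29, b29])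
      · exact lowb (by show _ ≤ -(x (n + 28) + x (n + 30)); linarith only [h1, h2, hε, hε', a28, b28, a30, b30])
      · exact lowb (by show _ ≤ -(x (n + 29) + x (n + 31)); linarith only [h1, h2, hε, hε', a29, b29, a31, b31])
      · exact lowb (by show _ ≤ -(x (n + 30) + x (n + 32)); linarith only [h1, h2, hε, hε', a30, b30, a32, b32])
      · exact lowb (by show _ ≤ -(x (n + 31) + x (n + 33)); linarith only [h1, h2, hε, hε', a31, b31, a33, b33])
      · exact lowb (by show _ ≤ -(x (n + 32) + x (n + 34)); linarith only [h1, h2, hε, hε', a32, b32, a34, b34])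
      · exact lowb (by show _ ≤ -(x (n + 33) + x (n + 35)); linarith only [h1, h2, hε, hε', a33, b33, a35, b35])
      · exact lowb (by show _ ≤ -(x (n + 34) + x (n + 36)); linarith only [h1, h2, hε, hε', a34, b34, a36, b36])
      · exact lowb (by show _ ≤ -(x (n + 35) + x (n + 37)); linarith only [h1, h2, hε, hε', a35, b35, a37, b37])
      · exact lowb (by show _ ≤ -(x (n + 36) + x (n + 38)); linarith only [h1, h2, hε, hε', a36, b36, a38, b38])
      · exact lowb (by show _ ≤ -(x (n + 37) + x (n + 39)); linarith only [h1, h2, hε, hε', a37, b37, a39, b39])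
      · exact lowb (by show _ ≤ -(x (n + 38) + x (n + 40)); linarith only [h1, h2, hε, hε', a38, b38, a40, b40])
      · exact lowb (by show _ ≤ -(x (n + 39) + x (n + 41)); linarith only [h1, h2, hε, hε', a39, b39, a41, b41])
      · exact lowb (by show _ ≤ -(x (n + 40) + x (n + 42)); linarith only [h1, h2, hε, hε', a40, b40, a42, b42])
      · exact lowb (by show _ ≤ -(x (n + 41) + x (n + 43)); linarith only [h1, h2, hε, hε', a41, b41, a43, b43])
      · exact lowb (by show _ ≤ -(x (n + 42) + x (n + 44)); linarith only [h1, h2, hε, hε', a42, b42, a44, b44])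
      · exact lowb (by show _ ≤ -(x (n + 43) + x (n + 45)); linarith only [h1, h2, hε, hε', a43, b43, a45, b45])
      · exact lowb (by show _ ≤ -(x (n + 44) + x (n + 46)); linarith only [h1, h2, hε, hε', a44, b44, a46, b46])
      · exact lowb (by show _ ≤ -(x (n + 45) + x (n + 47)); linarith only [h1, h2, hε, hε', a45, b45, a47, b47])
  · simp only [lft, rgt] at h1 h2
    obtain ⟨⟨a3, b3⟩, ⟨a4, b4⟩, ⟨a5, b5⟩, ⟨a6, b6⟩, ⟨a7, b7⟩, ⟨a8, b8⟩, ⟨a9, b9⟩, ⟨a10, b10⟩, ⟨a11, b11⟩, ⟨a12, b12⟩, ⟨a13, b13⟩, ⟨a14, b14⟩, ⟨a15, b15⟩, ⟨a16, b16⟩, ⟨a17, b17⟩, ⟨a18, b18⟩, ⟨a19, b19⟩, ⟨a20, b20⟩, ⟨a21, b21⟩, ⟨a22, b22⟩, ⟨a23, b23⟩, ⟨a24, b24⟩, ⟨a25, b25⟩, ⟨a26, b26⟩, ⟨a27, b27⟩, ⟨a28, b28⟩, ⟨a29, b29⟩⟩ :=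
      moveQ h hx hε hε' n w1 w2 u1 u2 (by linarith only [h1]) (by linarith only [h2])
    refine ⟨⟨a27, b27, a29, b29⟩, ⟨?_, ?_⟩, ?_, ?_, ?_⟩
    · show -(3 * x (n + 1)) - 13 - 1 / 1000 ≤ x (n + 28)
      linarith only [a28, hε, hε']
    · show x (n + 28) ≤ -(3 * x (n + 1)) - 13 + 1 / 1000
      linarith only [b28, hε, hε']
    · intro j hj
      rw [show len true = 27 from rfl] at hj
      interval_cases j
      · exact abs_le.2 ⟨by show -5 ≤ x n; linarith only [h1, h2, hε, hε', w1, w2], by show x n ≤ 5; linarith only [h1, h2, hε, hε', w1, w2]⟩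
      · exact abs_le.2 ⟨by show -5 ≤ x (n + 1); linarith only [h1, h2, hε, hε'], by show x (n + 1) ≤ 5; linarith only [h1, h2, hε, hε']⟩
      · exact abs_le.2 ⟨by show -5 ≤ x (n + 2); linarith only [h1, h2, hε, hε', u1, u2], by show x (n + 2) ≤ 5; linarith only [h1, h2, hε, hε', u1, u2]⟩
      · exact abs_le.2 ⟨by show -5 ≤ x (n + 3); linarith only [h1, h2, hε, hε', a3, b3], by show x (n + 3) ≤ 5; linarith only [h1, h2, hε, hε', a3, b3]⟩
      · exact abs_le.2 ⟨by show -5 ≤ x (n + 4); linarith only [h1, h2, hε, hε', a4, b4], by show x (n + 4) ≤ 5; linarith only [h1, h2, hε, hε', a4, b4]⟩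
      · exact abs_le.2 ⟨by show -5 ≤ x (n + 5); linarith only [h1, h2, hε, hε', a5, b5], by show x (n + 5) ≤ 5; linarith only [h1, h2, hε, hε', a5, b5]⟩
      · exact abs_le.2 ⟨by show -5 ≤ x (n + 6); linarith only [h1, h2, hε, hε', a6, b6], by show x (n + 6) ≤ 5; linarith only [h1, h2, hε, hε', a6, b6]⟩
      · exact abs_le.2 ⟨by show -5 ≤ x (n + 7); linarith only [h1, h2, hε, hε', a7, b7], by show x (n + 7) ≤ 5; linarith only [h1, h2, hε, hε', a7, b7]⟩
      · exact abs_le.2 ⟨by show -5 ≤ x (n + 8); linarith only [h1, h2, hε, hε', a8, b8], by show x (n + 8) ≤ 5; linarith only [h1, h2, hε, hε', a8, b8]⟩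
      · exact abs_le.2 ⟨by show -5 ≤ x (n + 9); linarith only [h1, h2, hε, hε', a9, b9], by show x (n + 9) ≤ 5; linarith only [h1, h2, hε, hε', a9, b9]⟩
      · exact abs_le.2 ⟨by show -5 ≤ x (n + 10); linarith only [h1, h2, hε, hε', a10, b10], by show x (n + 10) ≤ 5; linarith only [h1, h2, hε, hε', a10, b10]⟩
      · exact abs_le.2 ⟨by show -5 ≤ x (n + 11); linarith only [h1, h2, hε, hε', a11, b11], by show x (n + 11) ≤ 5; linarith only [h1, h2, hε, hε', a11, b11]⟩
      · exact abs_le.2 ⟨by show -5 ≤ x (n + 12); linarith only [h1, h2, hε, hε', a12, b12], by show x (n + 12) ≤ 5; linarith only [h1, h2, hε, hε', a12, b12]⟩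
      · exact abs_le.2 ⟨by show -5 ≤ x (n + 13); linarith only [h1, h2, hε, hε', a13, b13], by show x (n + 13) ≤ 5; linarith only [h1, h2, hε, hε', a13, b13]⟩
      · exact abs_le.2 ⟨by show -5 ≤ x (n + 14); linarith only [h1, h2, hε, hε', a14, b14], by show x (n + 14) ≤ 5; linarith only [h1, h2, hε, hε', a14, b14]⟩
      · exact abs_le.2 ⟨by show -5 ≤ x (n + 15); linarith only [h1, h2, hε, hε', a15, b15], by show x (n + 15) ≤ 5; linarith only [h1, h2, hε, hε', a15, b15]⟩
      · exact abs_le.2 ⟨by show -5 ≤ x (n + 16); linarith only [h1, h2, hε, hε', a16, b16], by show x (n + 16) ≤ 5; linarith only [h1, h2, hε, hε', a16, b16]⟩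
      · exact abs_le.2 ⟨by show -5 ≤ x (n + 17); linarith only [h1, h2, hε, hε', a17, b17], by show x (n + 17) ≤ 5; linarith only [h1, h2, hε, hε', a17, b17]⟩
      · exact abs_le.2 ⟨by show -5 ≤ x (n + 18); linarith only [h1, h2, hε, hε', a18, b18], by show x (n + 18) ≤ 5; linarith only [h1, h2, hε, hε', a18, b18]⟩
      · exact abs_le.2 ⟨by show -5 ≤ x (n + 19); linarith only [h1, h2, hε, hε', a19, b19], by show x (n + 19) ≤ 5; linarith only [h1, h2, hε, hε', a19, b19]⟩
      · exact abs_le.2 ⟨by show -5 ≤ x (n + 20); linarith only [h1, h2, hε, hε', a20, b20], by show x (n + 20) ≤ 5; linarith only [h1, h2, hε, hε', a20, b20]⟩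
      · exact abs_le.2 ⟨by show -5 ≤ x (n + 21); linarith only [h1, h2, hε, hε', a21, b21], by show x (n + 21) ≤ 5; linarith only [h1, h2, hε, hε', a21, b21]⟩
      · exact abs_le.2 ⟨by show -5 ≤ x (n + 22); linarith only [h1, h2, hε, hε', a22, b22], by show x (n + 22) ≤ 5; linarith only [h1, h2, hε, hε', a22, b22]⟩
      · exact abs_le.2 ⟨by show -5 ≤ x (n + 23); linarith only [h1, h2, hε, hε', a23, b23], by show x (n + 23) ≤ 5; linarith only [h1, h2, hε, hε', a23, b23]⟩
      · exact abs_le.2 ⟨by show -5 ≤ x (n + 24); linarith only [h1, h2, hε, hε', a24, b24], by show x (n + 24) ≤ 5; linarith only [h1, h2, hε, hε', a24, b24]⟩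
      · exact abs_le.2 ⟨by show -5 ≤ x (n + 25); linarith only [h1, h2, hε, hε', a25, b25], by show x (n + 25) ≤ 5; linarith only [h1, h2, hε, hε', a25, b25]⟩
      · exact abs_le.2 ⟨by show -5 ≤ x (n + 26); linarith only [h1, h2, hε, hε', a26, b26], by show x (n + 26) ≤ 5; linarith only [h1, h2, hε, hε', a26, b26]⟩
    · intro j hj hev
      subst hev
      exact hzero
    · intro j hj hev
      rw [show len true = 27 from rfl] at hj
      interval_cases j
      · exact absurd rfl hev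
      · exact lowb (by show _ ≤ -(x (n + 1) + x (n + 3)); linarith only [h1, h2, hε, hε', a3, b3])
      · exact lowb (by show _ ≤ -(x (n + 2) + x (n + 4)); linarith only [h1, h2, hε, hε', u1, u2, a4, b4])
      · exact lowb (by show _ ≤ -(x (n + 3) + x (n + 5)); linarith only [h1, h2, hε, hε', a3, b3, a5, b5])
      · exact lowb (by show _ ≤ -(x (n + 4) + x (n + 6)); linarith only [h1, h2, hε, hε', a4, b4, a6, b6])
      · exact lowb (by show _ ≤ -(x (n + 5) + x (n + 7)); linarith only [h1, h2, hε, hε', a5, b5, a7, b7])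
      · exact lowb (by show _ ≤ -(x (n + 6) + x (n + 8)); linarith only [h1, h2, hε, hε', a6, b6, a8, b8])
      · exact lowb (by show _ ≤ -(x (n + 7) + x (n + 9)); linarith only [h1, h2, hε, hε', a7, b7, a9, b9])
      · exact lowb (by show _ ≤ -(x (n + 8) + x (n + 10)); linarith only [h1, h2, hε, hε', a8, b8, a10, b10])
      · exact lowb (by show _ ≤ -(x (n + 9) + x (n + 11)); linarith only [h1, h2, hε, hε', a9, b9, a11, b11])
      · exact lowb (by show _ ≤ -(x (n + 10) + x (n + 12)); linarith only [h1, h2, hε, hε', a10, b10, a12, b12])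
      · exact lowb (by show _ ≤ -(x (n + 11) + x (n + 13)); linarith only [h1, h2, hε, hε', a11, b11, a13, b13])
      · exact lowb (by show _ ≤ -(x (n + 12) + x (n + 14)); linarith only [h1, h2, hε, hε', a12, b12, a14, b14])
      · exact lowb (by show _ ≤ -(x (n + 13) + x (n + 15)); linarith only [h1, h2, hε, hε', a13, b13, a15, b15])
      · exact lowb (by show _ ≤ -(x (n + 14) + x (n + 16)); linarith only [h1, h2, hε, hε', a14, b14, a16, b16])
      · exact lowb (by show _ ≤ -(x (n + 15) + x (n + 17)); linarith only [h1, h2, hε, hε', a15, b15, a17, b17])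
      · exact lowb (by show _ ≤ -(x (n + 16) + x (n + 18)); linarith only [h1, h2, hε, hε', a16, b16, a18, b18])
      · exact lowb (by show _ ≤ -(x (n + 17) + x (n + 19)); linarith only [h1, h2, hε, hε', a17, b17, a19, b19])
      · exact lowb (by show _ ≤ -(x (n + 18) + x (n + 20)); linarith only [h1, h2, hε, hε', a18, b18, a20, b20])
      · exact lowb (by show _ ≤ -(x (n + 19) + x (n + 21)); linarith only [h1, h2, hε, hε', a19, b19, a21, b21])
      · exact lowb (by show _ ≤ -(x (n + 20) + x (n + 22)); linarith only [h1, h2, hε, hε', a20, b20, a22, b22])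
      · exact lowb (by show _ ≤ -(x (n + 21) + x (n + 23)); linarith only [h1, h2, hε, hε', a21, b21, a23, b23])
      · exact lowb (by show _ ≤ -(x (n + 22) + x (n + 24)); linarith only [h1, h2, hε, hε', a22, b22, a24, b24])
      · exact lowb (by show _ ≤ -(x (n + 23) + x (n + 25)); linarith only [h1, h2, hε, hε', a23, b23, a25, b25])
      · exact lowb (by show _ ≤ -(x (n + 24) + x (n + 26)); linarith only [h1, h2, hε, hε', a24, b24, a26, b26])
      · exact lowb (by show _ ≤ -(x (n + 25) + x (n + 27)); linarith only [h1, h2, hε, hε', a25, b25, a27, b27])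
      · exact lowb (by show _ ≤ -(x (n + 26) + x (n + 28)); linarith only [h1, h2, hε, hε', a26, b26, a28, b28])

end Pool.Agent.Q191.RT
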