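import Pool.Agent.Q191.RT.Step

/-!
# The two kinds of excursions
-/

set_option autoImplicit false
set_option linter.unusedVariables false

namespace Pool.Agent.Q191.RT

variable {b ε : ℝ} (h : Par b ε) {x : ℕ → ℝ} (hx : Orb b x)

include h hx

/-- the long excursion -/
theorem moveP (hε : 0 ≤ ε) (hε' : ε ≤ 1 / 10000000) (n : ℕ)
    (w1 : -ε ≤ x n) (w2 : x n ≤ 0) (u1 : -ε ≤ x (n + 2)) (u2 : x (n + 2) ≤ 0)
    (hv1 : -16461 / 5000 ≤ x (n + 1)) (hv2 : x (n + 1) ≤ -16451 / 5000) :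
    (-1 - 3 * ε ≤ x (n + 3) ∧ x (n + 3) ≤ -1 + 3 * ε) ∧
    (1 * x (n + 1) - 4 * ε ≤ x (n + 4) ∧ x (n + 4) ≤ 1 * x (n + 1) + 4 * ε) ∧
    (-ε ≤ x (n + 5) ∧ x (n + 5) ≤ 0) ∧
    (-2 - 5 * ε ≤ x (n + 6) ∧ x (n + 6) ≤ -2 + 5 * ε) ∧
    (1 * x (n + 1) + 1 - 10 * ε ≤ x (n + 7) ∧ x (n + 7) ≤ 1 * x (n + 1) + 1 + 10 * ε) ∧
    (-ε ≤ x (n + 8) ∧ x (n + 8) ≤ 0) ∧
    (-3 - 7 * ε ≤ x (n + 9) ∧ x (n + 9) ≤ -3 + 7 * ε) ∧
    (1 * x (n + 1) + 3 - 18 * ε ≤ x (n + 10) ∧ x (n + 10) ≤ 1 * x (n + 1) + 3 + 18 * ε) ∧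
    (-1 * x (n + 1) - 4 - 20 * ε ≤ x (n + 11) ∧ x (n + 11) ≤ -1 * x (n + 1) - 4 + 20 * ε) ∧
    (1 * x (n + 1) - 28 * ε ≤ x (n + 12) ∧ x (n + 12) ≤ 1 * x (n + 1) + 28 * ε) ∧
    (-ε ≤ x (n + 13) ∧ x (n + 13) ≤ 0) ∧
    (-1 * x (n + 1) - 5 - 22 * ε ≤ x (n + 14) ∧ x (n + 14) ≤ -1 * x (n + 1) - 5 + 22 * ε) ∧
    (2 * x (n + 1) + 4 - 51 * ε ≤ x (n + 15) ∧ x (n + 15) ≤ 2 * x (n + 1) + 4 + 51 * ε) ∧
    (-ε ≤ x (n + 16) ∧ x (n + 16) ≤ 0) ∧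
    (-1 * x (n + 1) - 6 - 24 * ε ≤ x (n + 17) ∧ x (n + 17) ≤ -1 * x (n + 1) - 6 + 24 * ε) ∧
    (3 * x (n + 1) + 9 - 76 * ε ≤ x (n + 18) ∧ x (n + 18) ≤ 3 * x (n + 1) + 9 + 76 * ε) ∧
    (-3 * x (n + 1) - 10 - 78 * ε ≤ x (n + 19) ∧ x (n + 19) ≤ -3 * x (n + 1) - 10 + 78 * ε) ∧
    (2 * x (n + 1) + 3 - 103 * ε ≤ x (n + 20) ∧ x (n + 20) ≤ 2 * x (n + 1) + 3 + 103 * ε) ∧
    (-ε ≤ x (n + 21) ∧ x (n + 21) ≤ 0) ∧
    (-3 * x (n + 1) - 11 - 80 * ε ≤ x (n + 22) ∧ x (n + 22) ≤ -3 * x (n + 1) - 11 + 80 * ε) ∧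
    (5 * x (n + 1) + 13 - 184 * ε ≤ x (n + 23) ∧ x (n + 23) ≤ 5 * x (n + 1) + 13 + 184 * ε) ∧
    (-ε ≤ x (n + 24) ∧ x (n + 24) ≤ 0) ∧
    (-3 * x (n + 1) - 12 - 82 * ε ≤ x (n + 25) ∧ x (n + 25) ≤ -3 * x (n + 1) - 12 + 82 * ε) ∧
    (8 * x (n + 1) + 24 - 267 * ε ≤ x (n + 26) ∧ x (n + 26) ≤ 8 * x (n + 1) + 24 + 267 * ε) ∧
    (-ε ≤ x (n + 27) ∧ x (n + 27) ≤ 0) ∧
    (-3 * x (n + 1) - 13 - 84 * ε ≤ x (n + 28) ∧ x (n + 28) ≤ -3 * x (n + 1) - 13 + 84 * ε) ∧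
    (11 * x (n + 1) + 36 - 352 * ε ≤ x (n + 29) ∧ x (n + 29) ≤ 11 * x (n + 1) + 36 + 352 * ε) ∧
    (-11 * x (n + 1) - 37 - 354 * ε ≤ x (n + 30) ∧ x (n + 30) ≤ -11 * x (n + 1) - 37 + 354 * ε) ∧
    (8 * x (n + 1) + 23 - 439 * ε ≤ x (n + 31) ∧ x (n + 31) ≤ 8 * x (n + 1) + 23 + 439 * ε) ∧
    (-ε ≤ x (n + 32) ∧ x (n + 32) ≤ 0) ∧
    (-11 * x (n + 1) - 38 - 356 * ε ≤ x (n + 33) ∧ x (n + 33) ≤ -11 * x (n + 1) - 38 + 356 * ε) ∧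
    (19 * x (n + 1) + 60 - 796 * ε ≤ x (n + 34) ∧ x (n + 34) ≤ 19 * x (n + 1) + 60 + 796 * ε) ∧
    (-ε ≤ x (n + 35) ∧ x (n + 35) ≤ 0) ∧
    (-11 * x (n + 1) - 39 - 358 * ε ≤ x (n + 36) ∧ x (n + 36) ≤ -11 * x (n + 1) - 39 + 358 * ε) ∧
    (30 * x (n + 1) + 98 - 1155 * ε ≤ x (n + 37) ∧ x (n + 37) ≤ 30 * x (n + 1) + 98 + 1155 * ε) ∧
    (-30 * x (n + 1) - 99 - 1157 * ε ≤ x (n + 38) ∧ x (n + 38) ≤ -30 * x (n + 1) - 99 + 1157 * ε) ∧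
    (19 * x (n + 1) + 59 - 1516 * ε ≤ x (n + 39) ∧ x (n + 39) ≤ 19 * x (n + 1) + 59 + 1516 * ε) ∧
    (-ε ≤ x (n + 40) ∧ x (n + 40) ≤ 0) ∧
    (-30 * x (n + 1) - 100 - 1159 * ε ≤ x (n + 41) ∧ x (n + 41) ≤ -30 * x (n + 1) - 100 + 1159 * ε) ∧
    (49 * x (n + 1) + 158 - 2676 * ε ≤ x (n + 42) ∧ x (n + 42) ≤ 49 * x (n + 1) + 158 + 2676 * ε) ∧
    (-ε ≤ x (n + 43) ∧ x (n + 43) ≤ 0) ∧
    (-30 * x (n + 1) - 101 - 1161 * ε ≤ x (n + 44) ∧ x (n + 44) ≤ -30 * x (n + 1) - 101 + 1161 * ε) ∧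
    (79 * x (n + 1) + 258 - 3838 * ε ≤ x (n + 45) ∧ x (n + 45) ≤ 79 * x (n + 1) + 258 + 3838 * ε) ∧
    (-ε ≤ x (n + 46) ∧ x (n + 46) ≤ 0) ∧
    (-30 * x (n + 1) - 102 - 1163 * ε ≤ x (n + 47) ∧ x (n + 47) ≤ -30 * x (n + 1) - 102 + 1163 * ε) ∧
    (-ε ≤ x (n + 48) ∧ x (n + 48) ≤ 0) := by
  obtain ⟨l3, r3⟩ := stp1 h (hx n) (by linarith only [hv1, hv2, hε, hε', w1, w2, u1, u2])
  have a3 : -1 - 3 * ε ≤ x (n + 3) := by linarith only [hv1, hv2, hε, hε', w1, w2, u1, u2, l3, r3]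
  have b3 : x (n + 3) ≤ -1 + 3 * ε := by linarith only [hv1, hv2, hε, hε', w1, w2, u1, u2, l3, r3]
  obtain ⟨l4, r4⟩ := stp1 h (hx (n + 1)) (by linarith only [hv1, hv2, hε, hε', a3, b3])
  have a4 : 1 * x (n + 1) - 4 * ε ≤ x (n + 4) := by linarith only [hv1, hv2, hε, hε', a3, b3, l4, r4]
  have b4 : x (n + 4) ≤ 1 * x (n + 1) + 4 * ε := by linarith only [hv1, hv2, hε, hε', a3, b3, l4, r4]
  obtain ⟨a5, b5⟩ := stp0 h (hx (n + 2)) (by linarith only [hv1, hv2, hε, hε', u1, u2, a4, b4])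
  obtain ⟨l6, r6⟩ := stp1 h (hx (n + 3)) (by linarith only [hv1, hv2, hε, hε', a3, b3, a5, b5])
  have a6 : -2 - 5 * ε ≤ x (n + 6) := by linarith only [hv1, hv2, hε, hε', a3, b3, a5, b5, l6, r6]
  have b6 : x (n + 6) ≤ -2 + 5 * ε := by linarith only [hv1, hv2, hε, hε', a3, b3, a5, b5, l6, r6]
  obtain ⟨l7, r7⟩ := stp1 h (hx (n + 4)) (by linarith only [hv1, hv2, hε, hε', a4, b4, a6, b6])
  have a7 : 1 * x (n + 1) + 1 - 10 * ε ≤ x (n + 7) := by linarith only [hv1, hv2, hε, hε', a4, b4, a6, b6, l7, r7]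
  have b7 : x (n + 7) ≤ 1 * x (n + 1) + 1 + 10 * ε := by linarith only [hv1, hv2, hε, hε', a4, b4, a6, b6, l7, r7]
  obtain ⟨a8, b8⟩ := stp0 h (hx (n + 5)) (by linarith only [hv1, hv2, hε, hε', a5, b5, a7, b7])
  obtain ⟨l9, r9⟩ := stp1 h (hx (n + 6)) (by linarith only [hv1, hv2, hε, hε', a6, b6, a8, b8])
  have a9 : -3 - 7 * ε ≤ x (n + 9) := by linarith only [hv1, hv2, hε, hε', a6, b6, a8, b8, l9, r9]
  have b9 : x (n + 9) ≤ -3 + 7 * ε := by linarith only [hv1, hv2, hε, hε', a6, b6, a8, b8, l9, r9]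
  obtain ⟨l10, r10⟩ := stp1 h (hx (n + 7)) (by linarith only [hv1, hv2, hε, hε', a7, b7, a9, b9])
  have a10 : 1 * x (n + 1) + 3 - 18 * ε ≤ x (n + 10) := by linarith only [hv1, hv2, hε, hε', a7, b7, a9, b9, l10, r10]
  have b10 : x (n + 10) ≤ 1 * x (n + 1) + 3 + 18 * ε := by linarith only [hv1, hv2, hε, hε', a7, b7, a9, b9, l10, r10]
  obtain ⟨l11, r11⟩ := stp1 h (hx (n + 8)) (by linarith only [hv1, hv2, hε, hε', a8, b8, a10, b10])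
  have a11 : -1 * x (n + 1) - 4 - 20 * ε ≤ x (n + 11) := by linarith only [hv1, hv2, hε, hε', a8, b8, a10, b10, l11, r11]
  have b11 : x (n + 11) ≤ -1 * x (n + 1) - 4 + 20 * ε := by linarith only [hv1, hv2, hε, hε', a8, b8, a10, b10, l11, r11]
  obtain ⟨l12, r12⟩ := stp1 h (hx (n + 9)) (by linarith only [hv1, hv2, hε, hε', a9, b9, a11, b11])
  have a12 : 1 * x (n + 1) - 28 * ε ≤ x (n + 12) := by linarith only [hv1, hv2, hε, hε', a9, b9, a11, b11, l12, r12]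
  have b12 : x (n + 12) ≤ 1 * x (n + 1) + 28 * ε := by linarith only [hv1, hv2, hε, hε', a9, b9, a11, b11, l12, r12]
  obtain ⟨a13, b13⟩ := stp0 h (hx (n + 10)) (by linarith only [hv1, hv2, hε, hε', a10, b10, a12, b12])
  obtain ⟨l14, r14⟩ := stp1 h (hx (n + 11)) (by linarith only [hv1, hv2, hε, hε', a11, b11, a13, b13])
  have a14 : -1 * x (n + 1) - 5 - 22 * ε ≤ x (n + 14) := by linarith only [hv1, hv2, hε, hε', a11, b11, a13, b13, l14, r14]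
  have b14 : x (n + 14) ≤ -1 * x (n + 1) - 5 + 22 * ε := by linarith only [hv1, hv2, hε, hε', a11, b11, a13, b13, l14, r14]
  obtain ⟨l15, r15⟩ := stp1 h (hx (n + 12)) (by linarith only [hv1, hv2, hε, hε', a12, b12, a14, b14])
  have a15 : 2 * x (n + 1) + 4 - 51 * ε ≤ x (n + 15) := by linarith only [hv1, hv2, hε, hε', a12, b12, a14, b14, l15, r15]
  have b15 : x (n + 15) ≤ 2 * x (n + 1) + 4 + 51 * ε := by linarith only [hv1, hv2, hε, hε', a12, b12, a14, b14, l15, r15]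
  obtain ⟨a16, b16⟩ := stp0 h (hx (n + 13)) (by linarith only [hv1, hv2, hε, hε', a13, b13, a15, b15])
  obtain ⟨l17, r17⟩ := stp1 h (hx (n + 14)) (by linarith only [hv1, hv2, hε, hε', a14, b14, a16, b16])
  have a17 : -1 * x (n + 1) - 6 - 24 * ε ≤ x (n + 17) := by linarith only [hv1, hv2, hε, hε', a14, b14, a16, b16, l17, r17]
  have b17 : x (n + 17) ≤ -1 * x (n + 1) - 6 + 24 * ε := by linarith only [hv1, hv2, hε, hε', a14, b14, a16, b16, l17, r17]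
  obtain ⟨l18, r18⟩ := stp1 h (hx (n + 15)) (by linarith only [hv1, hv2, hε, hε', a15, b15, a17, b17])
  have a18 : 3 * x (n + 1) + 9 - 76 * ε ≤ x (n + 18) := by linarith only [hv1, hv2, hε, hε', a15, b15, a17, b17, l18, r18]
  have b18 : x (n + 18) ≤ 3 * x (n + 1) + 9 + 76 * ε := by linarith only [hv1, hv2, hε, hε', a15, b15, a17, b17, l18, r18]
  obtain ⟨l19, r19⟩ := stp1 h (hx (n + 16)) (by linarith only [hv1, hv2, hε, hε', a16, b16, a18, b18])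
  have a19 : -3 * x (n + 1) - 10 - 78 * ε ≤ x (n + 19) := by linarith only [hv1, hv2, hε, hε', a16, b16, a18, b18, l19, r19]
  have b19 : x (n + 19) ≤ -3 * x (n + 1) - 10 + 78 * ε := by linarith only [hv1, hv2, hε, hε', a16, b16, a18, b18, l19, r19]
  obtain ⟨l20, r20⟩ := stp1 h (hx (n + 17)) (by linarith only [hv1, hv2, hε, hε', a17, b17, a19, b19])
  have a20 : 2 * x (n + 1) + 3 - 103 * ε ≤ x (n + 20) := by linarith only [hv1, hv2, hε, hε', a17, b17, a19, b19, l20, r20]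
  have b20 : x (n + 20) ≤ 2 * x (n + 1) + 3 + 103 * ε := by linarith only [hv1, hv2, hε, hε', a17, b17, a19, b19, l20, r20]
  obtain ⟨a21, b21⟩ := stp0 h (hx (n + 18)) (by linarith only [hv1, hv2, hε, hε', a18, b18, a20, b20])
  obtain ⟨l22, r22⟩ := stp1 h (hx (n + 19)) (by linarith only [hv1, hv2, hε, hε', a19, b19, a21, b21])
  have a22 : -3 * x (n + 1) - 11 - 80 * ε ≤ x (n + 22) := by linarith only [hv1, hv2, hε, hε', a19, b19, a21, b21, l22, r22]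
  have b22 : x (n + 22) ≤ -3 * x (n + 1) - 11 + 80 * ε := by linarith only [hv1, hv2, hε, hε', a19, b19, a21, b21, l22, r22]
  obtain ⟨l23, r23⟩ := stp1 h (hx (n + 20)) (by linarith only [hv1, hv2, hε, hε', a20, b20, a22, b22])
  have a23 : 5 * x (n + 1) + 13 - 184 * ε ≤ x (n + 23) := by linarith only [hv1, hv2, hε, hε', a20, b20, a22, b22, l23, r23]
  have b23 : x (n + 23) ≤ 5 * x (n + 1) + 13 + 184 * ε := by linarith only [hv1, hv2, hε, hε', a20, b20, a22, b22, l23, r23]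
  obtain ⟨a24, b24⟩ := stp0 h (hx (n + 21)) (by linarith only [hv1, hv2, hε, hε', a21, b21, a23, b23])
  obtain ⟨l25, r25⟩ := stp1 h (hx (n + 22)) (by linarith only [hv1, hv2, hε, hε', a22, b22, a24, b24])
  have a25 : -3 * x (n + 1) - 12 - 82 * ε ≤ x (n + 25) := by linarith only [hv1, hv2, hε, hε', a22, b22, a24, b24, l25, r25]
  have b25 : x (n + 25) ≤ -3 * x (n + 1) - 12 + 82 * ε := by linarith only [hv1, hv2, hε, hε', a22, b22, a24, b24, l25, r25]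
  obtain ⟨l26, r26⟩ := stp1 h (hx (n + 23)) (by linarith only [hv1, hv2, hε, hε', a23, b23, a25, b25])
  have a26 : 8 * x (n + 1) + 24 - 267 * ε ≤ x (n + 26) := by linarith only [hv1, hv2, hε, hε', a23, b23, a25, b25, l26, r26]
  have b26 : x (n + 26) ≤ 8 * x (n + 1) + 24 + 267 * ε := by linarith only [hv1, hv2, hε, hε', a23, b23, a25, b25, l26, r26]
  obtain ⟨a27, b27⟩ := stp0 h (hx (n + 24)) (by linarith only [hv1, hv2, hε, hε', a24, b24, a26, b26])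
  obtain ⟨l28, r28⟩ := stp1 h (hx (n + 25)) (by linarith only [hv1, hv2, hε, hε', a25, b25, a27, b27])
  have a28 : -3 * x (n + 1) - 13 - 84 * ε ≤ x (n + 28) := by linarith only [hv1, hv2, hε, hε', a25, b25, a27, b27, l28, r28]
  have b28 : x (n + 28) ≤ -3 * x (n + 1) - 13 + 84 * ε := by linarith only [hv1, hv2, hε, hε', a25, b25, a27, b27, l28, r28]
  obtain ⟨l29, r29⟩ := stp1 h (hx (n + 26)) (by linarith only [hv1, hv2, hε, hε', a26, b26, a28, b28])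
  have a29 : 11 * x (n + 1) + 36 - 352 * ε ≤ x (n + 29) := by linarith only [hv1, hv2, hε, hε', a26, b26, a28, b28, l29, r29]
  have b29 : x (n + 29) ≤ 11 * x (n + 1) + 36 + 352 * ε := by linarith only [hv1, hv2, hε, hε', a26, b26, a28, b28, l29, r29]
  obtain ⟨l30, r30⟩ := stp1 h (hx (n + 27)) (by linarith only [hv1, hv2, hε, hε', a27, b27, a29, b29])
  have a30 : -11 * x (n + 1) - 37 - 354 * ε ≤ x (n + 30) := by linarith only [hv1, hv2, hε, hε', a27, b27, a29, b29, l30, r30]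
  have b30 : x (n + 30) ≤ -11 * x (n + 1) - 37 + 354 * ε := by linarith only [hv1, hv2, hε, hε', a27, b27, a29, b29, l30, r30]
  obtain ⟨l31, r31⟩ := stp1 h (hx (n + 28)) (by linarith only [hv1, hv2, hε, hε', a28, b28, a30, b30])
  have a31 : 8 * x (n + 1) + 23 - 439 * ε ≤ x (n + 31) := by linarith only [hv1, hv2, hε, hε', a28, b28, a30, b30, l31, r31]
  have b31 : x (n + 31) ≤ 8 * x (n + 1) + 23 + 439 * ε := by linarith only [hv1, hv2, hε, hε', a28, b28, a30, b30, l31, r31]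
  obtain ⟨a32, b32⟩ := stp0 h (hx (n + 29)) (by linarith only [hv1, hv2, hε, hε', a29, b29, a31, b31])
  obtain ⟨l33, r33⟩ := stp1 h (hx (n + 30)) (by linarith only [hv1, hv2, hε, hε', a30, b30, a32, b32])
  have a33 : -11 * x (n + 1) - 38 - 356 * ε ≤ x (n + 33) := by linarith only [hv1, hv2, hε, hε', a30, b30, a32, b32, l33, r33]
  have b33 : x (n + 33) ≤ -11 * x (n + 1) - 38 + 356 * ε := by linarith only [hv1, hv2, hε, hε', a30, b30, a32, b32, l33, r33]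
  obtain ⟨l34, r34⟩ := stp1 h (hx (n + 31)) (by linarith only [hv1, hv2, hε, hε', a31, b31, a33, b33])
  have a34 : 19 * x (n + 1) + 60 - 796 * ε ≤ x (n + 34) := by linarith only [hv1, hv2, hε, hε', a31, b31, a33, b33, l34, r34]
  have b34 : x (n + 34) ≤ 19 * x (n + 1) + 60 + 796 * ε := by linarith only [hv1, hv2, hε, hε', a31, b31, a33, b33, l34, r34]
  obtain ⟨a35, b35⟩ := stp0 h (hx (n + 32)) (by linarith only [hv1, hv2, hε, hε', a32, b32, a34, b34])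
  obtain ⟨l36, r36⟩ := stp1 h (hx (n + 33)) (by linarith only [hv1, hv2, hε, hε', a33, b33, a35, b35])
  have a36 : -11 * x (n + 1) - 39 - 358 * ε ≤ x (n + 36) := by linarith only [hv1, hv2, hε, hε', a33, b33, a35, b35, l36, r36]
  have b36 : x (n + 36) ≤ -11 * x (n + 1) - 39 + 358 * ε := by linarith only [hv1, hv2, hε, hε', a33, b33, a35, b35, l36, r36]
  obtain ⟨l37, r37⟩ := stp1 h (hx (n + 34)) (by linarith only [hv1, hv2, hε, hε', a34, b34, a36, b36])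
  have a37 : 30 * x (n + 1) + 98 - 1155 * ε ≤ x (n + 37) := by linarith only [hv1, hv2, hε, hε', a34, b34, a36, b36, l37, r37]
  have b37 : x (n + 37) ≤ 30 * x (n + 1) + 98 + 1155 * ε := by linarith only [hv1, hv2, hε, hε', a34, b34, a36, b36, l37, r37]
  obtain ⟨l38, r38⟩ := stp1 h (hx (n + 35)) (by linarith only [hv1, hv2, hε, hε', a35, b35, a37, b37])
  have a38 : -30 * x (n + 1) - 99 - 1157 * ε ≤ x (n + 38) := by linarith only [hv1, hv2, hε, hε', a35, b35, a37, b37, l38, r38]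
  have b38 : x (n + 38) ≤ -30 * x (n + 1) - 99 + 1157 * ε := by linarith only [hv1, hv2, hε, hε', a35, b35, a37, b37, l38, r38]
  obtain ⟨l39, r39⟩ := stp1 h (hx (n + 36)) (by linarith only [hv1, hv2, hε, hε', a36, b36, a38, b38])
  have a39 : 19 * x (n + 1) + 59 - 1516 * ε ≤ x (n + 39) := by linarith only [hv1, hv2, hε, hε', a36, b36, a38, b38, l39, r39]
  have b39 : x (n + 39) ≤ 19 * x (n + 1) + 59 + 1516 * ε := by linarith only [hv1, hv2, hε, hε', a36, b36, a38, b38, l39, r39]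
  obtain ⟨a40, b40⟩ := stp0 h (hx (n + 37)) (by linarith only [hv1, hv2, hε, hε', a37, b37, a39, b39])
  obtain ⟨l41, r41⟩ := stp1 h (hx (n + 38)) (by linarith only [hv1, hv2, hε, hε', a38, b38, a40, b40])
  have a41 : -30 * x (n + 1) - 100 - 1159 * ε ≤ x (n + 41) := by linarith only [hv1, hv2, hε, hε', a38, b38, a40, b40, l41, r41]
  have b41 : x (n + 41) ≤ -30 * x (n + 1) - 100 + 1159 * ε := by linarith only [hv1, hv2, hε, hε', a38, b38, a40, b40, l41, r41]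
  obtain ⟨l42, r42⟩ := stp1 h (hx (n + 39)) (by linarith only [hv1, hv2, hε, hε', a39, b39, a41, b41])
  have a42 : 49 * x (n + 1) + 158 - 2676 * ε ≤ x (n + 42) := by linarith only [hv1, hv2, hε, hε', a39, b39, a41, b41, l42, r42]
  have b42 : x (n + 42) ≤ 49 * x (n + 1) + 158 + 2676 * ε := by linarith only [hv1, hv2, hε, hε', a39, b39, a41, b41, l42, r42]
  obtain ⟨a43, b43⟩ := stp0 h (hx (n + 40)) (by linarith only [hv1, hv2, hε, hε', a40, b40, a42, b42])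
  obtain ⟨l44, r44⟩ := stp1 h (hx (n + 41)) (by linarith only [hv1, hv2, hε, hε', a41, b41, a43, b43])
  have a44 : -30 * x (n + 1) - 101 - 1161 * ε ≤ x (n + 44) := by linarith only [hv1, hv2, hε, hε', a41, b41, a43, b43, l44, r44]
  have b44 : x (n + 44) ≤ -30 * x (n + 1) - 101 + 1161 * ε := by linarith only [hv1, hv2, hε, hε', a41, b41, a43, b43, l44, r44]
  obtain ⟨l45, r45⟩ := stp1 h (hx (n + 42)) (by linarith only [hv1, hv2, hε, hε', a42, b42, a44, b44])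
  have a45 : 79 * x (n + 1) + 258 - 3838 * ε ≤ x (n + 45) := by linarith only [hv1, hv2, hε, hε', a42, b42, a44, b44, l45, r45]
  have b45 : x (n + 45) ≤ 79 * x (n + 1) + 258 + 3838 * ε := by linarith only [hv1, hv2, hε, hε', a42, b42, a44, b44, l45, r45]
  obtain ⟨a46, b46⟩ := stp0 h (hx (n + 43)) (by linarith only [hv1, hv2, hε, hε', a43, b43, a45, b45])
  obtain ⟨l47, r47⟩ := stp1 h (hx (n + 44)) (by linarith only [hv1, hv2, hε, hε', a44, b44, a46, b46])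
  have a47 : -30 * x (n + 1) - 102 - 1163 * ε ≤ x (n + 47) := by linarith only [hv1, hv2, hε, hε', a44, b44, a46, b46, l47, r47]
  have b47 : x (n + 47) ≤ -30 * x (n + 1) - 102 + 1163 * ε := by linarith only [hv1, hv2, hε, hε', a44, b44, a46, b46, l47, r47]
  obtain ⟨a48, b48⟩ := stp0 h (hx (n + 45)) (by linarith only [hv1, hv2, hε, hε', a45, b45, a47, b47])
  exact ⟨⟨a3, b3⟩, ⟨a4, b4⟩, ⟨a5, b5⟩, ⟨a6, b6⟩, ⟨a7, b7⟩, ⟨a8, b8⟩, ⟨a9, b9⟩, ⟨a10, b10⟩, ⟨a11, b11⟩, ⟨a12, b12⟩, ⟨a13, b13⟩, ⟨a14, b14⟩, ⟨a15, b15⟩, ⟨a16, b16⟩, ⟨a17, b17⟩, ⟨a18, b18⟩, ⟨a19, b19⟩, ⟨a20, b20⟩, ⟨a21, b21⟩, ⟨a22, b22⟩, ⟨a23, b23⟩, ⟨a24, b24⟩, ⟨a25, b25⟩, ⟨a26, b26⟩, ⟨a27, b27⟩, ⟨a28, b28⟩, ⟨a29, b29⟩, ⟨a30, b30⟩, ⟨a31, b31⟩, ⟨a32, b32⟩, ⟨a33, b33⟩, ⟨a34, b34⟩, ⟨a35, b35⟩, ⟨a36, b36⟩, ⟨a37, b37⟩, ⟨a38, b38⟩, ⟨a39, b39⟩, ⟨a40, b40⟩, ⟨a41, b41⟩, ⟨a42, b42⟩, ⟨a43, b43⟩, ⟨a44,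 b44⟩, ⟨a45, b45⟩, ⟨a46, b46⟩, ⟨a47, b47⟩, ⟨a48, b48⟩⟩

/-- the short excursion -/
theorem moveQ (hε : 0 ≤ ε) (hε' : ε ≤ 1 / 10000000) (n : ℕ)
    (w1 : -ε ≤ x n) (w2 : x n ≤ 0) (u1 : -ε ≤ x (n + 2)) (u2 : x (n + 2) ≤ 0)
    (hv1 : -407 / 125 ≤ x (n + 1)) (hv2 : x (n + 1) ≤ -647 / 200) :
    (-1 - 3 * ε ≤ x (n + 3) ∧ x (n + 3) ≤ -1 + 3 * ε) ∧
    (1 * x (n + 1) - 4 * ε ≤ x (n + 4) ∧ x (n + 4) ≤ 1 * x (n + 1) + 4 * ε) ∧
    (-ε ≤ x (n + 5) ∧ x (n + 5) ≤ 0) ∧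
    (-2 - 5 * ε ≤ x (n + 6) ∧ x (n + 6) ≤ -2 + 5 * ε) ∧
    (1 * x (n + 1) + 1 - 10 * ε ≤ x (n + 7) ∧ x (n + 7) ≤ 1 * x (n + 1) + 1 + 10 * ε) ∧
    (-ε ≤ x (n + 8) ∧ x (n + 8) ≤ 0) ∧
    (-3 - 7 * ε ≤ x (n + 9) ∧ x (n + 9) ≤ -3 + 7 * ε) ∧
    (1 * x (n + 1) + 3 - 18 * ε ≤ x (n + 10) ∧ x (n + 10) ≤ 1 * x (n + 1) + 3 + 18 * ε) ∧
    (-1 * x (n + 1) - 4 - 20 * ε ≤ x (n + 11) ∧ x (n + 11) ≤ -1 * x (n + 1) - 4 + 20 * ε) ∧
    (1 * x (n + 1) - 28 * ε ≤ x (n + 12) ∧ x (n + 12) ≤ 1 * x (n + 1) + 28 * ε) ∧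
    (-ε ≤ x (n + 13) ∧ x (n + 13) ≤ 0) ∧
    (-1 * x (n + 1) - 5 - 22 * ε ≤ x (n + 14) ∧ x (n + 14) ≤ -1 * x (n + 1) - 5 + 22 * ε) ∧
    (2 * x (n + 1) + 4 - 51 * ε ≤ x (n + 15) ∧ x (n + 15) ≤ 2 * x (n + 1) + 4 + 51 * ε) ∧
    (-ε ≤ x (n + 16) ∧ x (n + 16) ≤ 0) ∧
    (-1 * x (n + 1) - 6 - 24 * ε ≤ x (n + 17) ∧ x (n + 17) ≤ -1 * x (n + 1) - 6 + 24 * ε) ∧
    (3 * x (n + 1) + 9 - 76 * ε ≤ x (n + 18) ∧ x (n + 18) ≤ 3 * x (n + 1) + 9 + 76 * ε) ∧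
    (-3 * x (n + 1) - 10 - 78 * ε ≤ x (n + 19) ∧ x (n + 19) ≤ -3 * x (n + 1) - 10 + 78 * ε) ∧
    (2 * x (n + 1) + 3 - 103 * ε ≤ x (n + 20) ∧ x (n + 20) ≤ 2 * x (n + 1) + 3 + 103 * ε) ∧
    (-ε ≤ x (n + 21) ∧ x (n + 21) ≤ 0) ∧
    (-3 * x (n + 1) - 11 - 80 * ε ≤ x (n + 22) ∧ x (n + 22) ≤ -3 * x (n + 1) - 11 + 80 * ε) ∧
    (5 * x (n + 1) + 13 - 184 * ε ≤ x (n + 23) ∧ x (n + 23) ≤ 5 * x (n + 1) + 13 + 184 * ε) ∧
    (-ε ≤ x (n + 24) ∧ x (n + 24) ≤ 0) ∧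
    (-3 * x (n + 1) - 12 - 82 * ε ≤ x (n + 25) ∧ x (n + 25) ≤ -3 * x (n + 1) - 12 + 82 * ε) ∧
    (8 * x (n + 1) + 24 - 267 * ε ≤ x (n + 26) ∧ x (n + 26) ≤ 8 * x (n + 1) + 24 + 267 * ε) ∧
    (-ε ≤ x (n + 27) ∧ x (n + 27) ≤ 0) ∧
    (-3 * x (n + 1) - 13 - 84 * ε ≤ x (n + 28) ∧ x (n + 28) ≤ -3 * x (n + 1) - 13 + 84 * ε) ∧
    (-ε ≤ x (n + 29) ∧ x (n + 29) ≤ 0) := by
  obtain ⟨l3, r3⟩ := stp1 h (hx n) (by linarith only [hv1, hv2, hε, hε', w1, w2, u1, u2])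
  have a3 : -1 - 3 * ε ≤ x (n + 3) := by linarith only [hv1, hv2, hε, hε', w1, w2, u1, u2, l3, r3]
  have b3 : x (n + 3) ≤ -1 + 3 * ε := by linarith only [hv1, hv2, hε, hε', w1, w2, u1, u2, l3, r3]
  obtain ⟨l4, r4⟩ := stp1 h (hx (n + 1)) (by linarith only [hv1, hv2, hε, hε', a3, b3])
  have a4 : 1 * x (n + 1) - 4 * ε ≤ x (n + 4) := by linarith only [hv1, hv2, hε, hε', a3, b3, l4, r4]
  have b4 : x (n + 4) ≤ 1 * x (n + 1) + 4 * ε := by linarith only [hv1, hv2, hε, hε', a3, b3, l4, r4]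
  obtain ⟨a5, b5⟩ := stp0 h (hx (n + 2)) (by linarith only [hv1, hv2, hε, hε', u1, u2, a4, b4])
  obtain ⟨l6, r6⟩ := stp1 h (hx (n + 3)) (by linarith only [hv1, hv2, hε, hε', a3, b3, a5, b5])
  have a6 : -2 - 5 * ε ≤ x (n + 6) := by linarith only [hv1, hv2, hε, hε', a3, b3, a5, b5, l6, r6]
  have b6 : x (n + 6) ≤ -2 + 5 * ε := by linarith only [hv1, hv2, hε, hε', a3, b3, a5, b5, l6, r6]
  obtain ⟨l7, r7⟩ := stp1 h (hx (n + 4)) (by linarith only [hv1, hv2, hε, hε', a4, b4, a6, b6])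
  have a7 : 1 * x (n + 1) + 1 - 10 * ε ≤ x (n + 7) := by linarith only [hv1, hv2, hε, hε', a4, b4, a6, b6, l7, r7]
  have b7 : x (n + 7) ≤ 1 * x (n + 1) + 1 + 10 * ε := by linarith only [hv1, hv2, hε, hε', a4, b4, a6, b6, l7, r7]
  obtain ⟨a8, b8⟩ := stp0 h (hx (n + 5)) (by linarith only [hv1, hv2, hε, hε', a5, b5, a7, b7])
  obtain ⟨l9, r9⟩ := stp1 h (hx (n + 6)) (by linarith only [hv1, hv2, hε, hε', a6, b6, a8, b8])
  have a9 : -3 - 7 * ε ≤ x (n + 9) := by linarith only [hv1, hv2, hε, hε', a6, b6, a8, b8, l9, r9]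
  have b9 : x (n + 9) ≤ -3 + 7 * ε := by linarith only [hv1, hv2, hε, hε', a6, b6, a8, b8, l9, r9]
  obtain ⟨l10, r10⟩ := stp1 h (hx (n + 7)) (by linarith only [hv1, hv2, hε, hε', a7, b7, a9, b9])
  have a10 : 1 * x (n + 1) + 3 - 18 * ε ≤ x (n + 10) := by linarith only [hv1, hv2, hε, hε', a7, b7, a9, b9, l10, r10]
  have b10 : x (n + 10) ≤ 1 * x (n + 1) + 3 + 18 * ε := by linarith only [hv1, hv2, hε, hε', a7, b7, a9, b9, l10, r10]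
  obtain ⟨l11, r11⟩ := stp1 h (hx (n + 8)) (by linarith only [hv1, hv2, hε, hε', a8, b8, a10, b10])
  have a11 : -1 * x (n + 1) - 4 - 20 * ε ≤ x (n + 11) := by linarith only [hv1, hv2, hε, hε', a8, b8, a10, b10, l11, r11]
  have b11 : x (n + 11) ≤ -1 * x (n + 1) - 4 + 20 * ε := by linarith only [hv1, hv2, hε, hε', a8, b8, a10, b10, l11, r11]
  obtain ⟨l12, r12⟩ := stp1 h (hx (n + 9)) (by linarith only [hv1, hv2, hε, hε', a9, b9, a11, b11])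
  have a12 : 1 * x (n + 1) - 28 * ε ≤ x (n + 12) := by linarith only [hv1, hv2, hε, hε', a9, b9, a11, b11, l12, r12]
  have b12 : x (n + 12) ≤ 1 * x (n + 1) + 28 * ε := by linarith only [hv1, hv2, hε, hε', a9, b9, a11, b11, l12, r12]
  obtain ⟨a13, b13⟩ := stp0 h (hx (n + 10)) (by linarith only [hv1, hv2, hε, hε', a10, b10, a12, b12])
  obtain ⟨l14, r14⟩ := stp1 h (hx (n + 11)) (by linarith only [hv1, hv2, hε, hε', a11, b11, a13, b13])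
  have a14 : -1 * x (n + 1) - 5 - 22 * ε ≤ x (n + 14) := by linarith only [hv1, hv2, hε, hε', a11, b11, a13, b13, l14, r14]
  have b14 : x (n + 14) ≤ -1 * x (n + 1) - 5 + 22 * ε := by linarith only [hv1, hv2, hε, hε', a11, b11, a13, b13, l14, r14]
  obtain ⟨l15, r15⟩ := stp1 h (hx (n + 12)) (by linarith only [hv1, hv2, hε, hε', a12, b12, a14, b14])
  have a15 : 2 * x (n + 1) + 4 - 51 * ε ≤ x (n + 15) := by linarith only [hv1, hv2, hε, hε', a12, b12, a14, b14, l15, r15]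
  have b15 : x (n + 15) ≤ 2 * x (n + 1) + 4 + 51 * ε := by linarith only [hv1, hv2, hε, hε', a12, b12, a14, b14, l15, r15]
  obtain ⟨a16, b16⟩ := stp0 h (hx (n + 13)) (by linarith only [hv1, hv2, hε, hε', a13, b13, a15, b15])
  obtain ⟨l17, r17⟩ := stp1 h (hx (n + 14)) (by linarith only [hv1, hv2, hε, hε', a14, b14, a16, b16])
  have a17 : -1 * x (n + 1) - 6 - 24 * ε ≤ x (n + 17) := by linarith only [hv1, hv2, hε, hε', a14, b14, a16, b16, l17, r17]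
  have b17 : x (n + 17) ≤ -1 * x (n + 1) - 6 + 24 * ε := by linarith only [hv1, hv2, hε, hε', a14, b14, a16, b16, l17, r17]
  obtain ⟨l18, r18⟩ := stp1 h (hx (n + 15)) (by linarith only [hv1, hv2, hε, hε', a15, b15, a17, b17])
  have a18 : 3 * x (n + 1) + 9 - 76 * ε ≤ x (n + 18) := by linarith only [hv1, hv2, hε, hε', a15, b15, a17, b17, l18, r18]
  have b18 : x (n + 18) ≤ 3 * x (n + 1) + 9 + 76 * ε := by linarith only [hv1, hv2, hε, hε', a15, b15, a17, b17, l18, r18]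
  obtain ⟨l19, r19⟩ := stp1 h (hx (n + 16)) (by linarith only [hv1, hv2, hε, hε', a16, b16, a18, b18])
  have a19 : -3 * x (n + 1) - 10 - 78 * ε ≤ x (n + 19) := by linarith only [hv1, hv2, hε, hε', a16, b16, a18, b18, l19, r19]
  have b19 : x (n + 19) ≤ -3 * x (n + 1) - 10 + 78 * ε := by linarith only [hv1, hv2, hε, hε', a16, b16, a18, b18, l19, r19]
  obtain ⟨l20, r20⟩ := stp1 h (hx (n + 17)) (by linarith only [hv1, hv2, hε, hε', a17, b17, a19, b19])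
  have a20 : 2 * x (n + 1) + 3 - 103 * ε ≤ x (n + 20) := by linarith only [hv1, hv2, hε, hε', a17, b17, a19, b19, l20, r20]
  have b20 : x (n + 20) ≤ 2 * x (n + 1) + 3 + 103 * ε := by linarith only [hv1, hv2, hε, hε', a17, b17, a19, b19, l20, r20]
  obtain ⟨a21, b21⟩ := stp0 h (hx (n + 18)) (by linarith only [hv1, hv2, hε, hε', a18, b18, a20, b20])
  obtain ⟨l22, r22⟩ := stp1 h (hx (n + 19)) (by linarith only [hv1, hv2, hε, hε', a19, b19, a21, b21])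
  have a22 : -3 * x (n + 1) - 11 - 80 * ε ≤ x (n + 22) := by linarith only [hv1, hv2, hε, hε', a19, b19, a21, b21, l22, r22]
  have b22 : x (n + 22) ≤ -3 * x (n + 1) - 11 + 80 * ε := by linarith only [hv1, hv2, hε, hε', a19, b19, a21, b21, l22, r22]
  obtain ⟨l23, r23⟩ := stp1 h (hx (n + 20)) (by linarith only [hv1, hv2, hε, hε', a20, b20, a22, b22])
  have a23 : 5 * x (n + 1) + 13 - 184 * ε ≤ x (n + 23) := by linarith only [hv1, hv2, hε, hε', a20, b20, a22, b22, l23, r23]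
  have b23 : x (n + 23) ≤ 5 * x (n + 1) + 13 + 184 * ε := by linarith only [hv1, hv2, hε, hε', a20, b20, a22, b22, l23, r23]
  obtain ⟨a24, b24⟩ := stp0 h (hx (n + 21)) (by linarith only [hv1, hv2, hε, hε', a21, b21, a23, b23])
  obtain ⟨l25, r25⟩ := stp1 h (hx (n + 22)) (by linarith only [hv1, hv2, hε, hε', a22, b22, a24, b24])
  have a25 : -3 * x (n + 1) - 12 - 82 * ε ≤ x (n + 25) := by linarith only [hv1, hv2, hε, hε', a22, b22, a24, b24, l25, r25]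
  have b25 : x (n + 25) ≤ -3 * x (n + 1) - 12 + 82 * ε := by linarith only [hv1, hv2, hε, hε', a22, b22, a24, b24, l25, r25]
  obtain ⟨l26, r26⟩ := stp1 h (hx (n + 23)) (by linarith only [hv1, hv2, hε, hε', a23, b23, a25, b25])
  have a26 : 8 * x (n + 1) + 24 - 267 * ε ≤ x (n + 26) := by linarith only [hv1, hv2, hε, hε', a23, b23, a25, b25, l26, r26]
  have b26 : x (n + 26) ≤ 8 * x (n + 1) + 24 + 267 * ε := by linarith only [hv1, hv2, hε, hε', a23, b23, a25, b25, l26, r26]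
  obtain ⟨a27, b27⟩ := stp0 h (hx (n + 24)) (by linarith only [hv1, hv2, hε, hε', a24, b24, a26, b26])
  obtain ⟨l28, r28⟩ := stp1 h (hx (n + 25)) (by linarith only [hv1, hv2, hε, hε', a25, b25, a27, b27])
  have a28 : -3 * x (n + 1) - 13 - 84 * ε ≤ x (n + 28) := by linarith only [hv1, hv2, hε, hε', a25, b25, a27, b27, l28, r28]
  have b28 : x (n + 28) ≤ -3 * x (n + 1) - 13 + 84 * ε := by linarith only [hv1, hv2, hε, hε', a25, b25, a27, b27, l28, r28]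
  obtain ⟨a29, b29⟩ := stp0 h (hx (n + 26)) (by linarith only [hv1, hv2, hε, hε', a26, b26, a28, b28])
  exact ⟨⟨a3, b3⟩, ⟨a4, b4⟩, ⟨a5, b5⟩, ⟨a6, b6⟩, ⟨a7, b7⟩, ⟨a8, b8⟩, ⟨a9, b9⟩, ⟨a10, b10⟩, ⟨a11, b11⟩, ⟨a12, b12⟩, ⟨a13, b13⟩, ⟨a14, b14⟩, ⟨a15, b15⟩, ⟨a16, b16⟩, ⟨a17, b17⟩, ⟨a18, b18⟩, ⟨a19, b19⟩, ⟨a20, b20⟩, ⟨a21, b21⟩, ⟨a22, b22⟩, ⟨a23, b23⟩, ⟨a24, b24⟩, ⟨a25, b25⟩, ⟨a26, b26⟩, ⟨a27, b27⟩, ⟨a28, b28⟩, ⟨a29, b29⟩⟩

end Pool.Agent.Q191.RT
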