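import Pool.Agent.Q191.RT.Block
import Pool.Agent.Q191.RR.AbsDec

/-!
# The non-convergent solution
-/

set_option autoImplicit false
set_option linter.unusedVariables false

open Set Filter Topology

namespace Pool.Agent.Q191.RT

open Pool.Agent.Q191.RR (tim wd tim_find nonper exists_word_dec exp_nonper)

/-- the orbit with initial section value `s` -/
noncomputable def z (b s : ℝ) : ℕ → ℝ
  | 0 => 0
  | 1 => s
  | 2 => 0
  | (n + 3) => G b (z b s (n + 2)) (z b s n)

theorem z_orb (b s : ℝ) : Orb b (z b s) := fun n => by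
  rw [z]

theorem z_cont (b : ℝ) (n : ℕ) : Continuous (fun s => z b s n) := by
  induction n using Nat.strong_induction_on with
  | _ n ih =>
    match n, ih with
    | 0, _ => simp only [z]; exact continuous_const
    | 1, _ => simp only [z]; exact continuous_id
    | 2, _ => simp only [z]; exact continuous_const
    | (k + 3), ih =>
      have e : (fun s => z b s (k + 3)) =
          (fun p : ℝ × ℝ => G b p.1 p.2) ∘ (fun s => (z b s (k + 2), z b s k)) := by
        funext s
        show z b s (k + 3) = _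
        rw [z]
        rfl
      rw [e]
      exact (G_cont b).comp ((ih (k + 2) (by omega)).prodMk (ih k (by omega)))

theorem lft_le_rgt (i : Bool) : lft i ≤ rgt i := by
  cases i <;> simp only [lft, rgt] <;> norm_num

theorem cross_l (i j : Bool) : rgt j ≤ -(slo i * lft i) - cst i - 1 / 1000 := by
  cases i <;> cases j <;> simp only [lft, rgt, cst, slo] <;> norm_num

theorem cross_r (i j : Bool) : -(slo i * rgt i) - cst i + 1 / 1000 ≤ lft j := by
  cases i <;> cases j <;> simp only [lft, rgt, cst, slo] <;> norm_num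

/-- the orbit in logarithmic coordinates -/
theorem exists_log {b ε : ℝ} (h : Par b ε) (hε : 0 ≤ ε) (hε' : ε ≤ 1 / 10000000) :
    ∃ x : ℕ → ℝ, Orb b x ∧ (∀ n, |x n| ≤ 5) ∧
      ∀ k, 1 ≤ k → ¬ Tendsto (fun n => x (n + k) - x n) atTop (𝓝 0) := by
  have hB : ∀ s n i, Sec ε (z b s) n → lft i ≤ z b s (n + 1) → z b s (n + 1) ≤ rgt i → _ :=
    fun s n i => block h (z_orb b s) hε hε' n i
  obtain ⟨s, hs⟩ := exists_word_dec (Z := z b) (S := fun s n => Sec ε (z b s) n) (len := len)
    (lft := lft) (rgt := rgt) (z_cont b) lft_le_rgt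
    (fun s _ _ => by
      refine ⟨?_, ?_, ?_, ?_⟩
      · show -ε ≤ z b s 0
        simp only [z]; linarith
      · show z b s 0 ≤ 0
        simp only [z]; exact le_rfl
      · show -ε ≤ z b s 2
        simp only [z]; linarith
      · show z b s 2 ≤ 0
        simp only [z]; exact le_rfl)
    (fun s => by simp only [z])
    (fun s n i hS h1 h2 => (hB s n i hS h1 h2).1)
    (fun s n i j hS h1 => by
      have := (hB s n i hS h1.ge (h1.le.trans (lft_le_rgt i))).2.1.1
      rw [h1] at this
      exact (cross_l i j).trans this)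
    (fun s n i j hS h1 => by
      have := (hB s n i hS ((lft_le_rgt i).trans h1.ge) h1.le).2.1.2
      rw [h1] at this
      exact this.trans (cross_r i j))
  have hb : ∀ m, _ := fun m => hB s (tim len wd m) (wd m) (hs m).1 (hs m).2.1 (hs m).2.2
  have hpos : ∀ i, 0 < len i := fun i => by cases i <;> decide
  refine ⟨z b s, z_orb b s, ?_, ?_⟩
  · intro n
    obtain ⟨m, j, hj, hm⟩ := tim_find (len := len) hpos wd n
    have := (hb m).2.2.1 j hj
    rw [hm]
    exact this
  · intro k hk ht
    have hnn : ∀ n, |(|z b s n| + |z b s (n + 2)|)| = |z b s n| + |z b s (n + 2)| := fun n =>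
      abs_of_nonneg (by positivity)
    refine nonper (x := fun n => |z b s n| + |z b s (n + 2)|) (len := len)
      (ev := fun _ j => j = 0) (d := 19) (s := 0) (fun i => by cases i <;> decide)
      rfl (fun m j hj hev => ?_) (fun m j hj hev => ?_) (fun i => rfl) (fun i hi => ?_) k hk ?_
    · show |(|z b s (tim len wd m + 0 + j)| + |z b s (tim len wd m + 0 + j + 2)|)| ≤ 1 / 100
      rw [hnn, add_zero]
      exact (hb m).2.2.2.1 j hj hev
    · show 3 / 100 ≤ |(|z b s (tim len wd m + 0 + j)| + |z b s (tim len wd m + 0 + j + 2)|)|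
      rw [hnn, add_zero]
      exact (hb m).2.2.2.2 j hj hev
    · have hi' : 19 = 0 := hi
      omega
    · have h2 := (ht.abs).add ((ht.comp (tendsto_add_atTop_nat 2)).abs)
      rw [abs_zero, add_zero] at h2
      rw [tendsto_zero_iff_abs_tendsto_zero]
      refine squeeze_zero (fun n => abs_nonneg _) (fun n => ?_) h2
      show |(|z b s (n + k)| + |z b s (n + k + 2)|) - (|z b s n| + |z b s (n + 2)|)| ≤
        |z b s (n + k) - z b s n| + |z b s (n + 2 + k) - z b s (n + 2)|
      have e1 := abs_abs_sub_abs_le_abs_sub (z b s (n + k)) (z b s n)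
      have e2 := abs_abs_sub_abs_le_abs_sub (z b s (n + k + 2)) (z b s (n + 2))
      rw [show n + 2 + k = n + k + 2 by ring]
      calc |(|z b s (n + k)| + |z b s (n + k + 2)|) - (|z b s n| + |z b s (n + 2)|)|
          = |(|z b s (n + k)| - |z b s n|) + (|z b s (n + k + 2)| - |z b s (n + 2)|)| := by
            congr 1; ring
        _ ≤ _ := (abs_add_le _ _).trans (add_le_add e1 e2)

/-- For every real `t ≥ 10 ^ 7`, with `B = 2 ^ t`. -/
theorem final {t : ℝ} (ht : 10000000 ≤ t) :
    ∃ x : ℕ → ℝ, (∀ n, 0 < x n) ∧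
      (∀ n, x (n + 3) = x n / ((2 : ℝ) ^ t * x (n + 2) + x n)) ∧
      (∀ L : ℝ, ¬ Tendsto x atTop (𝓝 L)) ∧
      ∀ p : ℕ → ℝ, (∃ k, 1 ≤ k ∧ ∀ n, p (n + k) = p n) →
        ¬ Tendsto (fun n => x n - p n) atTop (𝓝 0) := by
  have h2 : 0 < Real.log 2 := Real.log_pos (by norm_num)
  have ht0 : 0 < t := by linarith
  have hpar : Par (t * Real.log 2) (1 / t) := by
    refine ⟨by positivity, ?_⟩
    field_simp
  have hε : (0 : ℝ) ≤ 1 / t := by positivity
  have hε' : 1 / t ≤ 1 / 10000000 := one_div_le_one_div_of_le (by norm_num) ht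
  obtain ⟨x, hx, hx5, hnp⟩ := exists_log hpar hε hε'
  have hb := hpar.b_pos
  have hfin := exp_nonper hb hx5 hnp
  set b := t * Real.log 2 with hbdef
  refine ⟨fun n => Real.exp (b * x n), fun n => Real.exp_pos _, ?_, ?_, hfin⟩
  · intro n
    show Real.exp (b * x (n + 3)) = _
    have e1 : (2 : ℝ) ^ t = Real.exp b := by
      rw [Real.rpow_def_of_pos (by norm_num), hbdef]
      congr 1
      ring
    have e3 : Real.exp (b * (1 + x (n + 2))) = Real.exp b * Real.exp (b * x (n + 2)) := by
      rw [← Real.exp_add]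
      congr 1
      ring
    rw [hx n, G, mul_div_cancel₀ _ hb.ne', Real.exp_sub, Real.exp_log (den_pos _ _ _), e1, e3]
  · intro L hL
    apply hfin (fun _ => L) ⟨1, le_rfl, fun n => rfl⟩
    have := hL.sub_const L
    rwa [sub_self] at this

end Pool.Agent.Q191.RT
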