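import Mathlib

/-!
# The recurrence `x' = w / (B u + w)` in logarithmic coordinates

In the coordinates `x = exp (b * ξ)` with `B = exp b` the map is within `ε` of the tropical map
`min 0 (w - u - 1)`.
-/

set_option autoImplicit false
set_option linter.unusedVariables false

namespace Pool.Agent.Q191.RT

open Real

/-- the map in logarithmic coordinates -/
noncomputable def G (b u w : ℝ) : ℝ :=
  (b * w - log (exp (b * (1 + u)) + exp (b * w))) / b

/-- admissible parameters -/
structure Par (b ε : ℝ) : Prop where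
  b_pos : 0 < b
  eps : log 2 = ε * b

variable {b ε : ℝ} (h : Par b ε)

theorem den_pos (b u w : ℝ) : 0 < exp (b * (1 + u)) + exp (b * w) := by positivity

include h

theorem le_both {w u y : ℝ} (hy : y = G b u w) : y ≤ 0 ∧ y ≤ w - u - 1 := by
  have hb := h.b_pos
  have h1 := exp_pos (b * (1 + u))
  have h2 := exp_pos (b * w)
  have d1 : b * w ≤ log (exp (b * (1 + u)) + exp (b * w)) := by
    rw [le_log_iff_exp_le (den_pos b u w)]
    linarith
  have d2 : b * (1 + u) ≤ log (exp (b * (1 + u)) + exp (b * w)) := by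
    rw [le_log_iff_exp_le (den_pos b u w)]
    linarith
  rw [hy]
  unfold G
  constructor
  · rw [div_le_iff₀ hb]
    linarith
  · rw [div_le_iff₀ hb]
    linarith [mul_comm b w, mul_comm b u]

theorem stp0 {w u y : ℝ} (hy : y = G b u w) (hw : 0 ≤ w - u - 1) : -ε ≤ y ∧ y ≤ 0 := by
  have hb := h.b_pos
  refine ⟨?_, (le_both h hy).1⟩
  have e4 := h.eps
  have d1 : log (exp (b * (1 + u)) + exp (b * w)) ≤ log 2 + b * w := by
    have e1 : log 2 + b * w = log (2 * exp (b * w)) := by
      rw [log_mul (by norm_num) (exp_pos _).ne', log_exp]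
    rw [e1]
    apply log_le_log (den_pos b u w)
    have h1 : exp (b * (1 + u)) ≤ exp (b * w) := exp_le_exp.2 (by nlinarith)
    linarith
  rw [hy]
  unfold G
  rw [le_div_iff₀ hb]
  linarith

theorem stp1 {w u y : ℝ} (hy : y = G b u w) (hw : w - u - 1 ≤ 0) :
    w - u - 1 - ε ≤ y ∧ y ≤ w - u - 1 := by
  have hb := h.b_pos
  refine ⟨?_, (le_both h hy).2⟩
  have e4 := h.eps
  have d1 : log (exp (b * (1 + u)) + exp (b * w)) ≤ log 2 + b * (1 + u) := by
    have e1 : log 2 + b * (1 + u) = log (2 * exp (b * (1 + u))) := by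
      rw [log_mul (by norm_num) (exp_pos _).ne', log_exp]
    rw [e1]
    apply log_le_log (den_pos b u w)
    have h1 : exp (b * w) ≤ exp (b * (1 + u)) := exp_le_exp.2 (by nlinarith)
    linarith
  rw [hy]
  unfold G
  rw [le_div_iff₀ hb]
  linarith [mul_comm b w, mul_comm b u]

omit h in
/-- continuity -/
theorem G_cont (b : ℝ) : Continuous (fun p : ℝ × ℝ => G b p.1 p.2) := by
  unfold G
  refine Continuous.div_const (Continuous.sub ?_ (Continuous.log ?_ ?_)) _
  · fun_prop
  · fun_prop
  · intro p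
    exact (den_pos b _ _).ne'

/-- orbits -/
def Orb (b : ℝ) (x : ℕ → ℝ) : Prop := ∀ n, x (n + 3) = G b (x (n + 2)) (x n)

end Pool.Agent.Q191.RT
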